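import Pool.Agent.Lib.MP_93b8a0_lc.Final

/-!
# MP_93b8a0_lc: sinkable rotations in polynomial time

A polynomial-time algorithm finds a sinkable rotation of a generic shortest-path triangulation of
the sphere with rational coordinates, or reports correctly that there is none.
-/

namespace Pool.Agent.Results.MP_93b8a0_lc.PolyTimeRotation

open Pool.Agent.Sink Pool.Agent.PolyTime

/-- There is a polynomial-time computable function `f` such that for every valid input `I` (faces
and rational vertices of a triangulation `I.x` of the sphere by shortest paths, no three vertices
on a great circle), either `f I` is a rotation (with rational entries) which makes the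
triangulation generic and sinkable, or `f I` is `none` and no rotation makes it generic and
sinkable. -/
theorem result : ∃ f : Input → Option Output, IsPolyTime enc enc f ∧
    ∀ (I : Input) (F : List (Fin I.n × Fin I.n × Fin I.n)), Valid I F →
      (∀ r, f I = some r → IsSinkRot F I.x (toMat r)) ∧
      (f I = none → ∀ R, ¬ IsSinkRot F I.x R) := sink_main

end Pool.Agent.Results.MP_93b8a0_lc.PolyTimeRotation
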